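import Pool.Agent.H77.KG.Targets

/-!
# Row IND of board kgr_modules
-/

set_option autoImplicit false

open Set Pool.Agent.H77.BC Pool.Agent.H77.BD Pool.Agent.H77.KG

namespace Pool.Agent.H48.KGR

section

variable {M : Type} {U : RU M} {G V : Type} [Group G] [AddCommGroup V]
  [DistribMulAction G V]

private def XX (T : Subgroup G) (w : V) (k : ℕ) : Set V :=
  {v : V | ∃ t t' : Fin k → G, (∀ i, t i ∈ T ∧ t' i ∈ T) ∧ v = ∑ i, (t i • w - t' i • w)}

private theorem XX_D [Cod M G] [Cod M V] [DG U G] [DAb U V] [DA U G V] {T : Subgroup G}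
    (hT : U.D (T : Set G)) (w : V) (k : ℕ) : U.D (XX T w k) := by
  unfold XX
  refine D_exists (p := fun (v : V) (t : Fin k → G) => ∃ t' : Fin k → G,
    (∀ i, t i ∈ T ∧ t' i ∈ T) ∧ v = ∑ i, (t i • w - t' i • w)) ?_
  refine D_exists (p := fun (z : V × (Fin k → G)) (t' : Fin k → G) =>
    (∀ i, z.2 i ∈ T ∧ t' i ∈ T) ∧ z.1 = ∑ i, (z.2 i • w - t' i • w)) ?_
  have h1 : ∀ i : Fin k, DFn U (fun z : (V × (Fin k → G)) × (Fin k → G) => z.1.2 i) := fun i =>
    DFn_comp (g := fun x : Fin k → G => x i) (DFn_apply i)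
      (DFn_comp (g := fun z : V × (Fin k → G) => z.2) DFn_snd DFn_fst)
  have h2 : ∀ i : Fin k, DFn U (fun z : (V × (Fin k → G)) × (Fin k → G) => z.2 i) := fun i =>
    DFn_comp (g := fun x : Fin k → G => x i) (DFn_apply i) DFn_snd
  refine D_and ?_ ?_
  · refine D_forall_fin (p := fun (i : Fin k) (z : (V × (Fin k → G)) × (Fin k → G)) =>
      z.1.2 i ∈ T ∧ z.2 i ∈ T) fun i => D_and ?_ ?_
    · exact D_subst (p := fun g : G => g ∈ T) hT (h1 i)
    · exact D_subst (p := fun g : G => g ∈ T) hT (h2 i)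
  · refine D_eqf (DFn_comp (g := fun z : V × (Fin k → G) => z.1) DFn_fst DFn_fst) ?_
    exact DFn_asum _ fun i _ => DFn_asub (DFn_act (h1 i) (DFn_const _))
      (DFn_act (h2 i) (DFn_const _))

private theorem XX_mono (T : Subgroup G) (w : V) (k : ℕ) : XX T w k ⊆ XX T w (k + 1) := by
  rintro v ⟨t, t', h, rfl⟩
  refine ⟨Fin.snoc t 1, Fin.snoc t' 1, ?_, ?_⟩
  · intro i
    refine Fin.lastCases ?_ (fun i => ?_) i
    · rw [Fin.snoc_last, Fin.snoc_last]; exact ⟨T.one_mem, T.one_mem⟩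
    · rw [Fin.snoc_castSucc, Fin.snoc_castSucc]; exact h i
  · rw [Fin.sum_univ_castSucc]
    simp only [Fin.snoc_castSucc, Fin.snoc_last, sub_self, add_zero]

private theorem XX_neg (T : Subgroup G) (w : V) (k : ℕ) : ∀ v ∈ XX T w k, -v ∈ XX T w k := by
  rintro v ⟨t, t', h, rfl⟩
  refine ⟨t', t, fun i => (h i).symm, ?_⟩
  rw [← Finset.sum_neg_distrib]
  exact Finset.sum_congr rfl fun i _ => neg_sub _ _

private theorem XX_add (T : Subgroup G) (w : V) (k l : ℕ) :
    ∀ v ∈ XX T w k, ∀ v' ∈ XX T w l, v + v' ∈ XX T w (k + l) := by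
  rintro v ⟨t, t', h, rfl⟩ v' ⟨s, s', h', rfl⟩
  refine ⟨Fin.append t s, Fin.append t' s', ?_, ?_⟩
  · intro i
    refine Fin.addCases (fun i => ?_) (fun i => ?_) i
    · rw [Fin.append_left, Fin.append_left]; exact h i
    · rw [Fin.append_right, Fin.append_right]; exact h' i
  · rw [Fin.sum_univ_add]
    simp only [Fin.append_left, Fin.append_right]

private theorem XX_sub {T : Subgroup G} {W : AddSubgroup V} (hW : Iv T W) {w : V} (hw : w ∈ W)
    (k : ℕ) : XX T w k ⊆ (W : Set V) := by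
  rintro v ⟨t, t', h, rfl⟩
  exact sum_mem fun i _ => sub_mem (hW _ (h i).1 _ hw) (hW _ (h i).2 _ hw)

private theorem XX_inv {T : Subgroup G} (w : V) (k : ℕ) {s : G} (hs : s ∈ T) :
    ∀ v ∈ XX T w k, s • v ∈ XX T w k := by
  rintro v ⟨t, t', h, rfl⟩
  refine ⟨fun i => s * t i, fun i => s * t' i,
    fun i => ⟨T.mul_mem hs (h i).1, T.mul_mem hs (h i).2⟩, ?_⟩
  rw [Finset.smul_sum]
  refine Finset.sum_congr rfl fun i _ => ?_
  rw [smul_sub, mul_smul, mul_smul]

private theorem XX_inf {T : Subgroup G} (w : V) (h : {v : V | ∃ t ∈ T, v = t • w}.Infinite) :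
    (XX T w 1).Infinite := by
  have h1 : ((fun v => v - w) '' {v : V | ∃ t ∈ T, v = t • w}).Infinite :=
    h.image (fun a _ b _ hab => by
      have : a - w = b - w := hab
      exact sub_left_injective this)
  refine h1.mono ?_
  rintro _ ⟨v, ⟨t, ht, rfl⟩, rfl⟩
  refine ⟨fun _ => t, fun _ => 1, fun _ => ⟨ht, T.one_mem⟩, ?_⟩
  rw [Fin.sum_univ_one, one_smul]

/-- the translate of a subgroup -/
private def tr (t : G) (A : AddSubgroup V) : AddSubgroup V :=
  A.map (DistribSMul.toAddMonoidHom V t)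

private theorem mem_tr {t : G} {A : AddSubgroup V} {v : V} : v ∈ tr t A ↔ t⁻¹ • v ∈ A := by
  unfold tr
  rw [AddSubgroup.mem_map]
  constructor
  · rintro ⟨a, ha, rfl⟩
    rw [DistribSMul.toAddMonoidHom_apply, inv_smul_smul]
    exact ha
  · intro h
    exact ⟨_, h, by rw [DistribSMul.toAddMonoidHom_apply, smul_inv_smul]⟩

private theorem tr_set (t : G) (A : AddSubgroup V) :
    (tr t A : Set V) = (fun v => t • v) '' (A : Set V) := by
  ext v
  rw [SetLike.mem_coe, mem_tr]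
  constructor
  · intro h
    exact ⟨_, h, smul_inv_smul _ _⟩
  · rintro ⟨a, ha, rfl⟩
    rw [inv_smul_smul]
    exact ha

variable [Cod M G] [Cod M V] [DG U G] [DAb U V] [DA U G V]

private theorem DFn_tr (t : G) : DFn U (fun v : V => t • v) :=
  DFn_act (DFn_const t) DFn_id

private theorem tr_D (t : G) {A : AddSubgroup V} (hA : U.D (A : Set V)) :
    U.D (tr t A : Set V) := by
  rw [tr_set]
  exact DFn_image (DFn_tr t) hA

private theorem tr_R (t : G) {A : AddSubgroup V} (hA : U.D (A : Set V)) :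
    U.R (tr t A : Set V) = U.R (A : Set V) := by
  rw [tr_set]
  exact (Pool.Agent.H77.BCP.a_RKB U).inj hA (DFn_tr t) ⟨0, A.zero_mem⟩
    (fun a _ b _ h => (MulAction.injective t) h)

private theorem tr_cns (t : G) {A : AddSubgroup V} (hA : CnS U A) : CnS U (tr t A) := by
  refine ⟨tr_D t hA.1, fun B hB hBD hR => ?_⟩
  have h1 : tr t⁻¹ B ≤ A := by
    intro v hv
    rw [mem_tr, inv_inv] at hv
    have := hB hv
    rw [mem_tr, inv_smul_smul] at this
    exact this
  have h2 := hA.2 (tr t⁻¹ B) h1 (tr_D t⁻¹ hBD) (by rw [tr_R t⁻¹ hBD, ← tr_R t hA.1]; exact hR)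
  ext v
  rw [mem_tr, ← h2, mem_tr, inv_inv, smul_inv_smul]

end

theorem pf_IND (hIN0 : T_IN0) (hADT : T_ADT) : T_IND := by
  intro M U G V _ _ _ _ _ _ _ _ T W hT hMn w hw hinf
  obtain ⟨hWD, hWI, hWinf, hWm⟩ := hMn
  have hadt := hADT U V
  have hRKA := Pool.Agent.H77.BCP.a_RKA U
  obtain ⟨k0, A0, hA0D, hA0i, hA0X⟩ := hIN0 U (XX T w) (XX_D hT w) (XX_mono T w) (XX_neg T w)
    (XX_add T w) ⟨1, XX_inf w hinf⟩
  -- ranks are bounded
  have hbd : ∀ (k : ℕ) (A : AddSubgroup V), U.D (A : Set V) → (A : Set V) ⊆ XX T w k →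
      U.R (A : Set V) ≤ U.R (W : Set V) := fun k A hA hAX =>
    hRKA.mono hA hWD ⟨0, A.zero_mem⟩ (hAX.trans (XX_sub hWI hw k))
  let P : ℕ → Prop := fun n => ∃ (k : ℕ) (A : AddSubgroup V), U.D (A : Set V) ∧
    (A : Set V).Infinite ∧ (A : Set V) ⊆ XX T w k ∧ U.R (A : Set V) = n
  have hP0 : P (U.R (A0 : Set V)) := ⟨k0, A0, hA0D, hA0i, hA0X, rfl⟩
  obtain ⟨n, hn, hmax⟩ : ∃ n, P n ∧ ∀ m, P m → m ≤ n := by
    classical
    have hb : ∀ m, P m → m ≤ U.R (W : Set V) := by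
      rintro m ⟨k, A, hA, _, hAX, rfl⟩
      exact hbd k A hA hAX
    refine ⟨Nat.findGreatest P (U.R (W : Set V)), Nat.findGreatest_spec (hb _ hP0) hP0,
      fun m hm => Nat.le_findGreatest (hb m hm) hm⟩
  obtain ⟨k, A1, hA1D, hA1i, hA1X, hA1R⟩ := hn
  obtain ⟨A, hAA1, hAc, hAR, _, _⟩ := hadt.comp A1 hA1D
  have hAD := hAc.1
  have hAX : (A : Set V) ⊆ XX T w k := fun v hv => hA1X (hAA1 hv)
  have hAi : (A : Set V).Infinite := by
    intro hfin
    have h1 := (hRKA.fin hAD ⟨0, A.zero_mem⟩).2 hfin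
    rw [hAR] at h1
    exact hA1i ((hRKA.fin hA1D ⟨0, A1.zero_mem⟩).1 h1)
  have hinv : Iv T A := by
    intro t ht v hv
    have hle : tr t A ≤ A := by
      have hsub : ((A ⊔ tr t A : AddSubgroup V) : Set V) ⊆ XX T w (k + k) := by
        intro x hx
        rw [SetLike.mem_coe, AddSubgroup.mem_sup] at hx
        obtain ⟨a, ha, b, hb, rfl⟩ := hx
        refine XX_add T w k k a (hAX ha) b ?_
        rw [mem_tr] at hb
        have := XX_inv w k ht _ (hAX hb)
        rwa [smul_inv_smul] at this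
      have hsD := hadt.sup A (tr t A) hAD (tr_D t hAD)
      have hsi : ((A ⊔ tr t A : AddSubgroup V) : Set V).Infinite :=
        hAi.mono (fun x hx => (le_sup_left : A ≤ A ⊔ tr t A) hx)
      have h1 := hmax _ ⟨k + k, _, hsD, hsi, hsub, rfl⟩
      rw [← hA1R, ← hAR] at h1
      have h2 := (hadt.idx A (A ⊔ tr t A) hAD hsD le_sup_left).2 h1
      have h3 : A.relIndex (tr t A) ≠ 0 := fun h =>
        h2 (AddSubgroup.relIndex_eq_zero_of_le_right le_sup_right h)
      have h4 : (A ⊓ tr t A).relIndex (tr t A) ≠ 0 := by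
        rw [AddSubgroup.inf_relIndex_right]; exact h3
      have hiD : U.D ((A ⊓ tr t A : AddSubgroup V) : Set V) := by
        rw [AddSubgroup.coe_inf]; exact D_inter hAD (tr_D t hAD)
      have h5 := (hadt.idx (A ⊓ tr t A) (tr t A) hiD (tr_D t hAD) inf_le_right).1 h4
      have h6 := (tr_cns t hAc).2 _ inf_le_right hiD h5
      rw [← h6]
      exact inf_le_left
    refine hle (mem_tr.2 ?_)
    rw [inv_smul_smul]
    exact hv
  have hAW : A ≤ W := fun v hv => XX_sub hWI hw k (hAX hv)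
  have hAeq : A = W := by
    by_contra hne
    exact hAi (hWm A hAW hAD hinv hne)
  refine ⟨k, fun v hv => ?_⟩
  rw [← hAeq] at hv
  exact hAX hv

end Pool.Agent.H48.KGR
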