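import Pool.Agent.H77.KG.Targets

/-!
# Row NAC of board kgr_modules
-/

set_option autoImplicit false

open Set Pool.Agent.H77.BC Pool.Agent.H77.BD Pool.Agent.H77.KG

namespace Pool.Agent.H48.KGR

private theorem psl_nontriv {F : Type} [Field F] (m : ℕ) (hm : 2 ≤ m) :
    Nontrivial (Matrix.ProjectiveSpecialLinearGroup (Fin m) F) := by
  obtain ⟨l, rfl⟩ : ∃ l, m = l + 2 := ⟨m - 2, by omega⟩
  -- a transvection is not central
  have h01 : (0 : Fin (l + 2)) ≠ 1 := by
    intro h
    have := congrArg Fin.val h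
    simp at this
  let A : Matrix.SpecialLinearGroup (Fin (l + 2)) F :=
    ⟨Matrix.transvection 0 1 1, Matrix.det_transvection_of_ne _ _ h01 _⟩
  refine ⟨⟨QuotientGroup.mk A, 1, fun h => ?_⟩⟩
  have h2 : A ∈ Subgroup.center (Matrix.SpecialLinearGroup (Fin (l + 2)) F) :=
    (QuotientGroup.eq_one_iff A).1 h
  rw [Matrix.SpecialLinearGroup.mem_center_iff] at h2
  obtain ⟨r, _, hr⟩ := h2
  have h3 : (Matrix.scalar (Fin (l + 2)) r) (0 : Fin (l + 2)) 1 =
      (A : Matrix (Fin (l + 2)) (Fin (l + 2)) F) 0 1 := by rw [hr]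
  rw [Matrix.scalar_apply, Matrix.diagonal_apply_ne _ h01] at h3
  have h4 : (A : Matrix (Fin (l + 2)) (Fin (l + 2)) F) 0 1 = 1 := by
    change (Matrix.transvection (0 : Fin (l + 2)) 1 (1 : F)) 0 1 = 1
    simp [Matrix.transvection, Matrix.one_apply_ne h01]
  rw [h4] at h3
  exact zero_ne_one h3

theorem pf_NAC (hRSB : T_RSB) : T_NAC := by
  intro M U G S _ _ _ _ _ _ _ hT hF F _ _ m hm he h1 h2
  have hGn : Nontrivial G := by
    obtain ⟨e⟩ := he
    have := psl_nontriv (F := F) m hm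
    exact e.toEquiv.nontrivial
  have hSn : Nonempty S := by
    by_contra hne
    rw [not_nonempty_iff] at hne
    obtain ⟨a, b, hab⟩ := hGn.exists_pair_ne
    exact hab (FaithfulSMul.eq_of_smul_eq_smul (M := G) (α := S) fun s => (hne.false s).elim)
  have hinf : ¬ (univ : Set S).Finite := by
    intro hfin
    have := ((Pool.Agent.H77.BCP.a_RKA U).fin (X := (univ : Set S)) Ful.full
      univ_nonempty).2 hfin
    omega
  have hM : Nontrivial M := by
    by_contra hM
    rw [not_nontrivial_iff_subsingleton] at hM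
    apply hinf
    have : Subsingleton S := ⟨fun a b => Cod.inj (M := M) (funext fun i => Subsingleton.elim _ _)⟩
    exact Set.toFinite _
  obtain ⟨U₀, hP, hG, hS, _⟩ := hRSB U (G := G) (S := S)
  have e1 : U₀.R (univ : Set G) = U.R (univ : Set G) := hG.R _ Ful.full ⟨1, mem_univ _⟩
  have e2 : U₀.R (univ : Set S) = U.R (univ : Set S) := hS.R _ Ful.full univ_nonempty
  have h3 := (Pool.Agent.H77.BCP.fnl U₀ hP hT hF (K := F) m hm he).2
  rw [e1, e2] at h3
  exact h3 h1 (Or.inl h2)

end Pool.Agent.H48.KGR
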