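import Pool.Agent.H77.KG.Targets

/-!
# Row PLB of board kgr_modules
-/

set_option autoImplicit false

open Set Pool.Agent.H77.BC Pool.Agent.H77.BD Pool.Agent.H77.KG

namespace Pool.Agent.H48.KGR

private theorem core {G S : Type} [Group G] [MulAction G S] (U : RU (G ⊕ S)) (hP : PG G S U)
    (hT : MulAction.IsPretransitive G S) (s : S) {K : Type} [Field K] [IsAlgClosed K] (l : ℕ)
    (he : Nonempty (G ≃* Matrix.ProjectiveSpecialLinearGroup (Fin (l + 2)) K)) :
    ∃ f : ℕ, 1 ≤ f ∧ U.R (univ : Set G) = (l + 3) * ((l + 1) * f) ∧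
      ∀ H : Subgroup G, U.D (H : Set G) → H ≠ ⊤ →
        U.R (H : Set G) + (l + 1) * f ≤ U.R (univ : Set G) := by
  obtain ⟨e⟩ := he
  let π : Matrix.SpecialLinearGroup (Fin (l + 2)) K →* G :=
    e.symm.toMonoidHom.comp (QuotientGroup.mk' _)
  have hπs : Function.Surjective π :=
    e.symm.surjective.comp (QuotientGroup.mk'_surjective _)
  have hπk : π.ker = Subgroup.center _ := by
    ext A
    rw [MonoidHom.mem_ker]
    change e.symm (QuotientGroup.mk' _ A) = 1 ↔ _
    rw [EmbeddingLike.map_eq_one_iff]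
    exact QuotientGroup.eq_one_iff A
  obtain ⟨c, hc, hπd⟩ := Pool.Agent.H77.BCP.a_TRX U hP l π hπs hπk
  have hG : DG U G := hP.dg
  obtain ⟨f, hf⟩ : ∃ f, f = U.R (univ : Set K) := ⟨_, rfl⟩
  have hf1 : 1 ≤ f := by rw [hf]; exact (Pool.Agent.H77.BCP.a_RKS U (K := K)).1
  have hGL : U.R (univ : Set (GL (Fin (l + 2)) K)) = (l + 2) * (l + 2) * f := by
    rw [hf]; exact Pool.Agent.H77.BCP.a_RGL U (l + 2)
  have hSL : U.R (univ : Set (Matrix.SpecialLinearGroup (Fin (l + 2)) K)) + f =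
      (l + 2) * (l + 2) * f := by
    have h1 := (Pool.Agent.H77.BCP.a_HZR U (K := K) (k := l + 2) (by omega) ⊤ Ful.full).2
    rw [(Pool.Agent.H77.BCP.a_HZA (K := K) (k := l + 2) (by omega)).1] at h1
    have h2 : U.R (((⊤ : Subgroup (GL (Fin (l + 2)) K)) : Set (GL (Fin (l + 2)) K))) =
      U.R (univ : Set (GL (Fin (l + 2)) K)) := rfl
    have h3 : U.R (((⊤ : Subgroup (Matrix.SpecialLinearGroup (Fin (l + 2)) K)) :
      Set (Matrix.SpecialLinearGroup (Fin (l + 2)) K))) =
      U.R (univ : Set (Matrix.SpecialLinearGroup (Fin (l + 2)) K)) := rfl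
    rw [h2, h3, hGL, ← hf] at h1
    exact h1.symm
  have hRG : U.R (univ : Set (Matrix.SpecialLinearGroup (Fin (l + 2)) K)) =
      U.R (univ : Set G) := (Pool.Agent.H77.BCP.a_RST U hP hT l π hπs hπk hπd s).2.2
  -- inverse images
  have hpre : ∀ H : Subgroup G, U.D (H : Set G) → U.D ((H.comap π : Subgroup _) :
      Set (Matrix.SpecialLinearGroup (Fin (l + 2)) K)) := fun H hH => DFn_preim hπd hH
  have hkD : U.D ((π.ker : Subgroup _) : Set (Matrix.SpecialLinearGroup (Fin (l + 2)) K)) := by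
    have h1 := DFn_preim hπd (D_singleton (1 : G))
    have h2 : ((π.ker : Subgroup _) : Set (Matrix.SpecialLinearGroup (Fin (l + 2)) K)) =
        {A | π A ∈ ({1} : Set G)} := by
      ext A
      rw [SetLike.mem_coe, MonoidHom.mem_ker]
      exact Iff.rfl
    rw [h2]; exact h1
  have hrk : ∀ H : Subgroup G, U.D (H : Set G) → U.R ((H.comap π : Subgroup _) :
      Set (Matrix.SpecialLinearGroup (Fin (l + 2)) K)) = U.R (H : Set G) +
        U.R ((π.ker : Subgroup _) : Set (Matrix.SpecialLinearGroup (Fin (l + 2)) K)) := by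
    intro H hH
    have h1 := Pool.Agent.H77.BCP.a_GRC U (H.comap π) π.ker (fun A => π A) (hpre H hH) hkD
      (fun A hA => by
        rw [MonoidHom.mem_ker] at hA
        rw [Subgroup.mem_comap, hA]
        exact H.one_mem) hπd (fun a _ b _ => by
          rw [MonoidHom.mem_ker, map_mul, map_inv, inv_mul_eq_one])
    have h2 : (fun A => π A) '' ((H.comap π : Subgroup _) :
        Set (Matrix.SpecialLinearGroup (Fin (l + 2)) K)) = (H : Set G) := by
      ext g
      constructor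
      · rintro ⟨A, hA, rfl⟩
        exact hA
      · intro hg
        obtain ⟨A, rfl⟩ := hπs g
        exact ⟨A, hg, rfl⟩
    rw [h2] at h1
    exact h1
  have hker : U.R ((π.ker : Subgroup _) :
      Set (Matrix.SpecialLinearGroup (Fin (l + 2)) K)) = 0 := by
    have h1 := hrk ⊤ Ful.full
    rw [Subgroup.comap_top] at h1
    have h2 : U.R (((⊤ : Subgroup (Matrix.SpecialLinearGroup (Fin (l + 2)) K)) :
      Set (Matrix.SpecialLinearGroup (Fin (l + 2)) K))) =
      U.R (univ : Set (Matrix.SpecialLinearGroup (Fin (l + 2)) K)) := rfl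
    have h3 : U.R (((⊤ : Subgroup G) : Set G)) = U.R (univ : Set G) := rfl
    rw [h2, h3, hRG] at h1
    omega
  have hgm : U.R (univ : Set G) = (l + 3) * ((l + 1) * f) := by
    have : (l + 2) * (l + 2) * f = (l + 3) * ((l + 1) * f) + f := by ring
    omega
  refine ⟨f, hf1, hgm, fun H hH hne => ?_⟩
  by_contra hlt
  push Not at hlt
  obtain ⟨h4, h5⟩ := Pool.Agent.H77.BCP.a_HZR U (K := K) (k := l + 2) (by omega) _ (hpre H hH)
  rw [hrk H hH, hker, ← hf] at h5
  have h6 := Pool.Agent.H77.BCP.a_MK U (K := K) (l + 1) (by omega) (hz (H.comap π)) h4 (by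
    rw [h5, ← hf]
    have e1 : (l + 1 + 1) * (l + 1 + 1) * f = (l + 2) * (l + 2) * f := rfl
    rw [e1]
    omega)
  have h7 := ((Pool.Agent.H77.BCP.a_HZA (K := K) (k := l + 2) (by omega)).2 _).1 h6
  apply hne
  rw [eq_top_iff]
  intro g _
  obtain ⟨A, rfl⟩ := hπs g
  have : A ∈ H.comap π := by rw [h7]; trivial
  exact this

private theorem psl_nontriv {F : Type} [Field F] (l : ℕ) :
    Nontrivial (Matrix.ProjectiveSpecialLinearGroup (Fin (l + 2)) F) := by
  have h01 : (0 : Fin (l + 2)) ≠ 1 := by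
    intro h
    have := congrArg Fin.val h
    simp at this
  let A : Matrix.SpecialLinearGroup (Fin (l + 2)) F :=
    ⟨Matrix.transvection 0 1 1, Matrix.det_transvection_of_ne _ _ h01 _⟩
  refine ⟨⟨QuotientGroup.mk A, 1, fun h => ?_⟩⟩
  have h2 : A ∈ Subgroup.center (Matrix.SpecialLinearGroup (Fin (l + 2)) F) :=
    (QuotientGroup.eq_one_iff A).1 h
  rw [Matrix.SpecialLinearGroup.mem_center_iff] at h2
  obtain ⟨r, _, hr⟩ := h2
  have h3 : (Matrix.scalar (Fin (l + 2)) r) (0 : Fin (l + 2)) 1 =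
      (A : Matrix (Fin (l + 2)) (Fin (l + 2)) F) 0 1 := by rw [hr]
  rw [Matrix.scalar_apply, Matrix.diagonal_apply_ne _ h01] at h3
  have h4 : (A : Matrix (Fin (l + 2)) (Fin (l + 2)) F) 0 1 = 1 := by
    change (Matrix.transvection (0 : Fin (l + 2)) 1 (1 : F)) 0 1 = 1
    simp [Matrix.transvection, Matrix.one_apply_ne h01]
  rw [h4] at h3
  exact zero_ne_one h3

/-- a copy of `L` -/
private def Cp (L : Type) : Type := L

private instance {L : Type} [Group L] : MulAction L (Cp L) := inferInstanceAs (MulAction L L)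

private instance {M L : Type} [h : Cod M L] : Cod M (Cp L) := h

theorem pf_PLB (hRSB : T_RSB) : T_PLB := by
  intro M U L _ _ _ F _ _ m he
  have hLn : Nontrivial L := by
    obtain ⟨e⟩ := he
    have := psl_nontriv (F := F) m
    exact e.toEquiv.nontrivial
  have hM : Nontrivial M := by
    by_contra hM
    rw [not_nontrivial_iff_subsingleton] at hM
    obtain ⟨a, b, hab⟩ := hLn.exists_pair_ne
    exact hab (Cod.inj (M := M) (funext fun i => Subsingleton.elim _ _))
  have hFC : Ful U (Cp L) := ⟨(Ful.full : U.D (univ : Set L))⟩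
  have hDA : DA U L (Cp L) := ⟨(DG.mul : DFn U (fun p : L × L => p.1 * p.2))⟩
  have hT0 : ∀ x y : L, ∃ g : L, g * x = y := fun x y => ⟨y * x⁻¹, inv_mul_cancel_right y x⟩
  have hT : MulAction.IsPretransitive L (Cp L) := ⟨hT0⟩
  obtain ⟨U₀, hP, hG, _, _⟩ := hRSB U (G := L) (S := Cp L)
  obtain ⟨f, hf, hr, hH⟩ := core (G := L) (S := Cp L) U₀ hP hT ((1 : L) : L) (K := F) m he
  have e1 := hG.R (univ : Set L) Ful.full ⟨1, mem_univ _⟩
  rw [e1] at hr
  have h1 : 1 ≤ (m + 1) * f := Nat.mul_pos (by omega) hf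
  refine ⟨(m + 1) * f, h1, ?_, ?_, Or.inr ⟨F, inferInstance, inferInstance, m, f, hf, rfl, hr,
    he⟩⟩
  · rw [hr]
    exact Nat.mul_le_mul_right _ (by omega)
  · intro H hD hne
    have h2 := hH H ((hG.D _).2 hD) hne
    rw [e1, hG.R _ hD ⟨1, H.one_mem⟩] at h2
    exact h2

end Pool.Agent.H48.KGR
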